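import Pool.Agent.H86.SM.St

/-!
# Singmaster: the blocks with explicit powers of `log log t`
-/

namespace Pool.Agent.H86.SM

open Filter Topology

noncomputable section

/-- `Λ = 1 + log(1 + log t)` -/
def Lam3 (L : ℝ) : ℝ := 1 + Real.log (1 + L)

/-- The number of solutions in a block, sharper form. -/
def BlockSt3 : Prop := ∃ L₀ : ℝ, ∀ (t : ℕ) (M : ℝ) (S : Finset ℕ),
  L₀ ≤ Real.log t → Real.log t ^ (1 / 2 : ℝ) * Lam3 (Real.log t) ^ 3 ≤ M → 15 * M ≤ Real.log t →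
  (∀ m ∈ S, m ∈ Sol t ∧ M ≤ m ∧ (m : ℝ) ≤ 11 / 10 * M) →
  (S.card : ℝ) ≤ 10 ^ 9 * Lam3 (Real.log t) ^ 3 * Real.log (160 * Lam3 (Real.log t)) ^ 2 *
    (Real.log t / M + Lam3 (Real.log t) ^ 2)

/-- The number of solutions with `15 m ≤ log t`, sharper form. -/
def OuterSt3 : Prop := ∃ C : ℝ, ∀ (t : ℕ) (S : Finset ℕ), 2 ≤ t →
  (∀ m ∈ S, m ∈ Sol t ∧ 15 * (m : ℝ) ≤ Real.log t) →
  (S.card : ℝ) ≤ C * Real.log t ^ (1 / 2 : ℝ) * (1 + Real.log (1 + Real.log t)) ^ 3

end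

namespace Block3A

lemma tend_lam : Tendsto Lam3 atTop atTop := by
  unfold Lam3
  refine tendsto_atTop_add_const_left _ _ ?_
  exact Real.tendsto_log_atTop.comp (tendsto_atTop_add_const_left _ _ tendsto_id)

lemma tend_pow (n : ℕ) : Tendsto (fun L : ℝ => Lam3 L ^ n / L) atTop (𝓝 0) := by
  have h1 := Real.tendsto_pow_log_div_mul_add_atTop (Real.exp (-1)) (-1) n (Real.exp_ne_zero _)
  have h2 : Tendsto (fun L : ℝ => Real.exp 1 * (1 + L)) atTop atTop :=
    (tendsto_atTop_add_const_left _ _ tendsto_id).const_mul_atTop (Real.exp_pos 1)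
  have h3 := h1.comp h2
  refine h3.congr' ?_
  filter_upwards [eventually_gt_atTop 0] with L hL
  simp only [Function.comp]
  have e1 : Real.log (Real.exp 1 * (1 + L)) = Lam3 L := by
    unfold Lam3
    rw [Real.log_mul (Real.exp_ne_zero _) (by linarith), Real.log_exp]
  have e2 : Real.exp (-1) * (Real.exp 1 * (1 + L)) + -1 = L := by
    rw [← mul_assoc, ← Real.exp_add]
    norm_num
  rw [e1, e2]

lemma tend_log : Tendsto (fun L : ℝ => Real.log (160 * Lam3 L) ^ 3 / Lam3 L) atTop (𝓝 0) := by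
  have h1 := Real.tendsto_pow_log_div_mul_add_atTop (1 / 160) 0 3 (by norm_num)
  have h2 : Tendsto (fun L : ℝ => 160 * Lam3 L) atTop atTop :=
    tend_lam.const_mul_atTop (by norm_num)
  refine (h1.comp h2).congr fun L => ?_
  simp only [Function.comp]
  congr 1; ring

lemma log160 : (5 : ℝ) ≤ Real.log 160 := by
  rw [Real.le_log_iff_exp_le (by norm_num)]
  have h1 : Real.exp 5 = Real.exp 1 ^ 5 := by rw [← Real.exp_nat_mul]; norm_num
  rw [h1]
  have h2 := Real.exp_one_lt_d9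
  calc Real.exp 1 ^ 5 ≤ (2.7182818286 : ℝ) ^ 5 :=
        pow_le_pow_left₀ (Real.exp_pos 1).le h2.le 5
    _ ≤ 160 := by norm_num

lemma log40 : Real.log 40 ≤ 4 := by
  rw [Real.log_le_iff_le_exp (by norm_num)]
  have h1 : Real.exp 4 = Real.exp 1 ^ 4 := by rw [← Real.exp_nat_mul]; norm_num
  rw [h1]
  have h2 := Real.exp_one_gt_d9
  calc (40 : ℝ) ≤ (2.7182818283 : ℝ) ^ 4 := by norm_num
    _ ≤ Real.exp 1 ^ 4 := pow_le_pow_left₀ (by norm_num) h2.le 4

lemma ell_ge {y : ℝ} (hy : 1 ≤ y) : 5 ≤ Real.log (160 * y) :=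
  log160.trans (Real.log_le_log (by norm_num) (by linarith))

lemma ell_le {y : ℝ} (hy : 1 ≤ y) : Real.log (160 * y) ≤ 8 * y := by
  have h1 : Real.log (160 * y) = Real.log 40 + Real.log (4 * y) := by
    rw [← Real.log_mul (by norm_num) (by positivity)]; congr 1; ring
  have h2 := Real.log_le_sub_one_of_pos (show 0 < 4 * y by linarith)
  rw [h1]
  linarith [log40]

/-- the asymptotic conditions -/
lemma large : ∃ L₀ : ℝ, ∀ L : ℝ, L₀ ≤ L → 4 ≤ L ∧
    10 ^ 14 * Real.log (160 * Lam3 L) ^ 3 * (1 / Lam3 L + Lam3 L ^ 8 / L) < 1 ∧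
    Lam3 L ^ 10 / L ≤ 1 := by
  have h1 : ∀ᶠ L : ℝ in atTop, 4 ≤ L := eventually_ge_atTop 4
  have h2 : ∀ᶠ L : ℝ in atTop, Real.log (160 * Lam3 L) ^ 3 / Lam3 L < 1 / (4 * 10 ^ 14) :=
    tend_log.eventually_lt_const (by positivity)
  have h3 : ∀ᶠ L : ℝ in atTop, Lam3 L ^ 11 / L < 1 / (4 * 10 ^ 14 * 512) :=
    (tend_pow 11).eventually_lt_const (by positivity)
  have h4 : ∀ᶠ L : ℝ in atTop, Lam3 L ^ 10 / L ≤ 1 :=
    (tend_pow 10).eventually_le_const one_pos
  have h5 : ∀ᶠ L : ℝ in atTop, 1 ≤ Lam3 L := tend_lam.eventually_ge_atTop 1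
  obtain ⟨L₀, hL₀⟩ := eventually_atTop.1 (h1.and (h2.and (h3.and (h4.and h5))))
  refine ⟨L₀, fun L hL => ?_⟩
  obtain ⟨a1, a2, a3, a4, a5⟩ := hL₀ L hL
  refine ⟨a1, ?_, a4⟩
  have hL0 : 0 < L := by linarith
  have b1 := ell_le a5
  have b2 := ell_ge a5
  set y := Lam3 L with hy
  set e := Real.log (160 * y) with he
  have hy0 : 0 < y := by linarith
  have b3 : e ^ 3 * (y ^ 8 / L) ≤ 512 * (y ^ 11 / L) := by
    have c1 : e ^ 3 ≤ (8 * y) ^ 3 := pow_le_pow_left₀ (by linarith) b1 3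
    calc e ^ 3 * (y ^ 8 / L) ≤ (8 * y) ^ 3 * (y ^ 8 / L) :=
          mul_le_mul_of_nonneg_right c1 (by positivity)
      _ = 512 * (y ^ 11 / L) := by ring
  have b4 : 10 ^ 14 * e ^ 3 * (1 / y + y ^ 8 / L)
      = 10 ^ 14 * (e ^ 3 / y) + 10 ^ 14 * (e ^ 3 * (y ^ 8 / L)) := by ring
  rw [b4]
  have b5 : (10 : ℝ) ^ 14 * (e ^ 3 / y) < 1 / 4 := by
    have := mul_lt_mul_of_pos_left a2 (show (0 : ℝ) < 10 ^ 14 by positivity)
    refine this.trans_le (le_of_eq ?_)
    norm_num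
  have b6 : (10 : ℝ) ^ 14 * (e ^ 3 * (y ^ 8 / L)) < 1 / 4 := by
    have c1 := mul_lt_mul_of_pos_left a3 (show (0 : ℝ) < 10 ^ 14 * 512 by positivity)
    have c2 := mul_le_mul_of_nonneg_left b3 (show (0 : ℝ) ≤ 10 ^ 14 by positivity)
    calc (10 : ℝ) ^ 14 * (e ^ 3 * (y ^ 8 / L)) ≤ 10 ^ 14 * (512 * (y ^ 11 / L)) := c2
      _ = 10 ^ 14 * 512 * (y ^ 11 / L) := by ring
      _ < 10 ^ 14 * 512 * (1 / (4 * 10 ^ 14 * 512)) := c1
      _ = 1 / 4 := by norm_num
  linarith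

/-- Siegel's condition -/
lemma num1 {a b l y lm l11 : ℝ} (hy : 1 ≤ y) (hl : 15 ≤ l) (ha : 10 * l + 8 * y + 24 ≤ a)
    (hb : 8 * y ≤ b) (hlm : lm ≤ y) (hl11 : l11 ≤ y) :
    2 * a * l11 + 2 * Real.log ((a + 1) * (b + 1)) + b * (5 / 2 * l + 2 * lm + 6) <
      4 / 5 * ((a + 1) * (b + 1) - 1) := by
  have ha0 : 0 < a := by linarith
  have hb0 : 0 < b := by linarith
  have h1 : 2 * a * l11 ≤ a * b / 4 := by nlinarith
  have h2 : b * (5 / 2 * l + 2 * lm + 6) ≤ a * b / 4 := by nlinarith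
  set D := (a + 1) * (b + 1) with hD
  have hDab : a * b ≤ D := by rw [hD]; nlinarith
  have hD1 : 1600 ≤ D := by rw [hD]; nlinarith
  have h3 : Real.log D ≤ D / 40 + 3 := by
    have e1 : Real.log D = Real.log (D / 40) + Real.log 40 := by
      rw [← Real.log_mul (by positivity) (by norm_num)]; congr 1; ring
    have e2 := Real.log_le_sub_one_of_pos (show 0 < D / 40 by positivity)
    rw [e1]; linarith [log40]
  nlinarith

/-- the condition of the zero estimate -/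
lemma num2 {a b l y lm : ℝ} (hy : 1 ≤ y) (hl : 15 ≤ l) (ha0 : 0 ≤ a) (ha : a ≤ 10 * l + 8 * y + 25)
    (hb0 : 0 ≤ b) (hb : b ≤ 8 * y + 1) (hlm : lm ≤ y) :
    8 * (b + 1) * (lm + 6 + (a + 1) * Real.log (16 * (b + 1))) ≤
      1000 * y * (l + y) * Real.log (160 * y) := by
  have hb1 : b + 1 ≤ 10 * y := by linarith
  have ha1 : a + 1 ≤ 12 * (l + y) := by linarith
  have he : Real.log (16 * (b + 1)) ≤ Real.log (160 * y) :=
    Real.log_le_log (by positivity) (by linarith)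
  have he5 := ell_ge hy
  set e := Real.log (160 * y) with hedef
  have hly : 0 < l + y := by linarith
  have h1 : (a + 1) * Real.log (16 * (b + 1)) ≤ 12 * (l + y) * e :=
    mul_le_mul ha1 he (Real.log_nonneg (by linarith)) (by positivity)
  have h2 : lm + 6 ≤ (l + y) * (e / 5) := by
    have : lm + 6 ≤ l + y := by linarith
    have h3 : 1 ≤ e / 5 := by linarith
    nlinarith
  have h3 : lm + 6 + (a + 1) * Real.log (16 * (b + 1)) ≤ (l + y) * e * (61 / 5) := by
    nlinarith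
  have h4 : 0 ≤ (l + y) * e * (61 / 5) := by positivity
  calc 8 * (b + 1) * (lm + 6 + (a + 1) * Real.log (16 * (b + 1)))
      ≤ 8 * (b + 1) * ((l + y) * e * (61 / 5)) :=
        mul_le_mul_of_nonneg_left h3 (by positivity)
    _ ≤ 8 * (10 * y) * ((l + y) * e * (61 / 5)) := by
        refine mul_le_mul_of_nonneg_right ?_ h4
        linarith
    _ = 976 * (y * (l + y) * e) := by ring
    _ ≤ 1000 * (y * (l + y) * e) := by
        refine mul_le_mul_of_nonneg_right (by norm_num) (by positivity)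
    _ = _ := by ring

/-- `T³` against `L` -/
lemma num3 {l y e L T : ℝ} (hy : 1 ≤ y) (hl : 15 ≤ l) (he : 0 < e) (hL : 0 < L)
    (hT : T = 1000 * y * (l + y) * e) (hlL : l ^ 2 / L ≤ 1 / y ^ 6)
    (hlarge : 10 ^ 14 * e ^ 3 * (1 / y + y ^ 8 / L) < 1) :
    13950 * y ^ 2 * T ^ 3 / (l * L) < 1 := by
  have hl0 : 0 < l := by linarith
  have hy0 : 0 < y := by linarith
  have h1 : (l + y) ^ 3 ≤ 4 * (l ^ 3 + y ^ 3) := by
    nlinarith [mul_nonneg (add_pos hl0 hy0).le (sq_nonneg (l - y))]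
  have h2 : 13950 * y ^ 2 * T ^ 3 / (l * L)
      = 13950 * 10 ^ 9 * y ^ 5 * e ^ 3 / (l * L) * (l + y) ^ 3 := by
    rw [hT]; ring
  have h3 : 13950 * 10 ^ 9 * y ^ 5 * e ^ 3 / (l * L) * (l + y) ^ 3 ≤
      13950 * 10 ^ 9 * y ^ 5 * e ^ 3 / (l * L) * (4 * (l ^ 3 + y ^ 3)) :=
    mul_le_mul_of_nonneg_left h1 (by positivity)
  have h4 : 13950 * 10 ^ 9 * y ^ 5 * e ^ 3 / (l * L) * (4 * (l ^ 3 + y ^ 3))
      = 558 * 10 ^ 11 * y ^ 5 * e ^ 3 * (l ^ 2 / L) + 558 * 10 ^ 11 * y ^ 5 * e ^ 3 *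
        (y ^ 3 / (l * L)) := by
    field_simp
    ring
  have h5 : 558 * 10 ^ 11 * y ^ 5 * e ^ 3 * (l ^ 2 / L) ≤ 558 * 10 ^ 11 * e ^ 3 * (1 / y) := by
    calc 558 * 10 ^ 11 * y ^ 5 * e ^ 3 * (l ^ 2 / L)
        ≤ 558 * 10 ^ 11 * y ^ 5 * e ^ 3 * (1 / y ^ 6) :=
          mul_le_mul_of_nonneg_left hlL (by positivity)
      _ = _ := by field_simp
  have h6 : 558 * 10 ^ 11 * y ^ 5 * e ^ 3 * (y ^ 3 / (l * L)) ≤
      558 * 10 ^ 11 * e ^ 3 * (y ^ 8 / L) := by
    have c1 : y ^ 3 / (l * L) ≤ y ^ 3 / L := by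
      refine div_le_div_of_nonneg_left (by positivity) hL ?_
      nlinarith
    calc 558 * 10 ^ 11 * y ^ 5 * e ^ 3 * (y ^ 3 / (l * L))
        ≤ 558 * 10 ^ 11 * y ^ 5 * e ^ 3 * (y ^ 3 / L) :=
          mul_le_mul_of_nonneg_left c1 (by positivity)
      _ = _ := by ring
  have h7 : 558 * 10 ^ 11 * e ^ 3 * (1 / y) + 558 * 10 ^ 11 * e ^ 3 * (y ^ 8 / L)
      ≤ 10 ^ 14 * e ^ 3 * (1 / y + y ^ 8 / L) := by
    have c1 : 0 ≤ e ^ 3 * (1 / y + y ^ 8 / L) := by positivity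
    nlinarith
  rw [h2]
  linarith

end Block3A

open Block3A in
theorem block3 (Co : CoreSt) : BlockSt3 := by
  obtain ⟨L₀, hL₀⟩ := large
  refine ⟨L₀, fun t M S hLt hM0 hM15 hS => ?_⟩
  set L : ℝ := Real.log t with hL
  obtain ⟨hL4, hbig, -⟩ := hL₀ L hLt
  have hL0 : 0 < L := by linarith
  have hy : 1 ≤ Lam3 L := by
    unfold Lam3
    have := Real.log_nonneg (show (1 : ℝ) ≤ 1 + L by linarith)
    linarith
  have hydef : Lam3 L = 1 + Real.log (1 + L) := rfl
  set y : ℝ := Lam3 L with hyd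
  have hy0 : 0 < y := by linarith
  have he5 := ell_ge hy
  set e : ℝ := Real.log (160 * y) with he
  have he0 : 0 < e := by linarith
  have hy31 : 1 ≤ y ^ 3 := one_le_pow₀ hy
  have hsq : L ^ (1 / 2 : ℝ) * L ^ (1 / 2 : ℝ) = L := by
    rw [← Real.rpow_add hL0]; norm_num
  have hsq0 : 0 < L ^ (1 / 2 : ℝ) := Real.rpow_pos_of_pos hL0 _
  have hsq2 : 2 ≤ L ^ (1 / 2 : ℝ) := by
    by_contra hcon
    push Not at hcon
    have h1 : L ^ (1 / 2 : ℝ) * L ^ (1 / 2 : ℝ) < 2 * 2 :=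
      mul_lt_mul'' hcon hcon hsq0.le hsq0.le
    linarith
  have hM2 : 2 ≤ M := by
    have h1 : L ^ (1 / 2 : ℝ) ≤ L ^ (1 / 2 : ℝ) * y ^ 3 := le_mul_of_one_le_right hsq0.le hy31
    linarith
  have hMpos : 0 < M := by linarith
  have ht2 : 2 ≤ t := by
    by_contra hcon
    have : t = 0 ∨ t = 1 := by omega
    rcases this with h | h
    · rw [h] at hL; simp at hL; linarith
    · rw [h] at hL; simp at hL; linarith
  set l : ℝ := L / M with hl
  have hl15 : 15 ≤ l := by rw [hl, le_div_iff₀ hMpos]; exact hM15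
  have hl0 : 0 < l := by linarith
  have hlM : l * M = L := by rw [hl]; field_simp
  have hlm : Real.log (2 * M) ≤ y := by
    have h1 : Real.log (2 * M) ≤ Real.log (1 + L) :=
      Real.log_le_log (by linarith) (by linarith)
    linarith
  have hl11 : Real.log (11 / 10 * M) ≤ y :=
    (Real.log_le_log (by linarith) (by linarith)).trans hlm
  -- the parameters
  set J : ℕ := ⌈8 * y⌉₊ with hJ
  set I : ℕ := ⌈10 * l + 8 * y + 24⌉₊ with hI
  have hJ1 : 8 * y ≤ J := Nat.le_ceil _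
  have hJ2 : (J : ℝ) ≤ 8 * y + 1 := (Nat.ceil_lt_add_one (by positivity)).le
  have hI1 : 10 * l + 8 * y + 24 ≤ I := Nat.le_ceil _
  have hI2 : (I : ℝ) ≤ 10 * l + 8 * y + 25 := by
    have := (Nat.ceil_lt_add_one (show 0 ≤ 10 * l + 8 * y + 24 by positivity)).le
    linarith
  have hJone : 1 ≤ J := by
    have : (1 : ℝ) ≤ J := by linarith
    exact_mod_cast this
  have hIone : 1 ≤ I := by
    have : (1 : ℝ) ≤ I := by linarith
    exact_mod_cast this
  set T : ℝ := 1000 * y * (l + y) * e with hT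
  have hTl : l ≤ T := by
    have h1 : l ≤ l + y := by linarith
    have h2 : 1 ≤ 1000 * y * e := by
      have h3 : 1 ≤ y * e := one_le_mul_of_one_le_of_one_le hy (by linarith)
      have h4 : 1000 * y * e = 1000 * (y * e) := by ring
      linarith
    calc l ≤ (l + y) * 1 := by linarith
      _ ≤ (l + y) * (1000 * y * e) := mul_le_mul_of_nonneg_left h2 (by positivity)
      _ = T := by rw [hT]; ring
  have hT0 : 0 < T := by linarith
  have hJr : (1 : ℝ) ≤ J := by exact_mod_cast hJone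
  have hJTl : l * l ≤ J * T ^ 2 := by
    calc l * l ≤ T * T := mul_le_mul hTl hTl hl0.le hT0.le
      _ = 1 * T ^ 2 := by ring
      _ ≤ J * T ^ 2 := mul_le_mul_of_nonneg_right hJr (by positivity)
  have c1 := num1 hy hl15 hI1 hJ1 hlm hl11
  have c2 := num2 hy hl15 (Nat.cast_nonneg I) hI2 (Nat.cast_nonneg J) hJ2 hlm
  have hlL : l ^ 2 / L ≤ 1 / y ^ 6 := by
    have h1 : L * y ^ 6 ≤ M ^ 2 := by
      calc L * y ^ 6 = (L ^ (1 / 2 : ℝ) * L ^ (1 / 2 : ℝ)) * y ^ 6 := by rw [hsq]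
        _ = (L ^ (1 / 2 : ℝ) * y ^ 3) * (L ^ (1 / 2 : ℝ) * y ^ 3) := by ring
        _ ≤ M * M := mul_le_mul hM0 hM0 (by positivity) hMpos.le
        _ = M ^ 2 := by ring
    rw [div_le_div_iff₀ hL0 (by positivity), one_mul, hl, div_pow, div_mul_eq_mul_div,
      div_le_iff₀ (by positivity)]
    calc L ^ 2 * y ^ 6 = L * (L * y ^ 6) := by ring
      _ ≤ L * M ^ 2 := mul_le_mul_of_nonneg_left h1 hL0.le
  have c3 := num3 hy hl15 he0 hL0 hT hlL hbig
  -- the main bound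
  have hmain : (S.card : ℝ) ≤ 30 * J * T ^ 2 * M / L := by
    by_contra hcon
    push Not at hcon
    set X : ℝ := 30 * J * T ^ 2 * M / L with hX
    have hX0 : 0 ≤ X := by positivity
    set N : ℕ := ⌊X⌋₊ + 1 with hN
    have hNS : N ≤ S.card := by
      have : ⌊X⌋₊ < S.card := (Nat.floor_lt hX0).2 hcon
      omega
    have hNX : X < N := by rw [hN]; push_cast; exact Nat.lt_floor_add_one X
    have hNX2 : (N : ℝ) ≤ X + 1 := by
      rw [hN]; push_cast
      have := Nat.floor_le hX0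
      linarith
    obtain ⟨S', hS'S, hS'c⟩ := Finset.exists_subset_card_eq hNS
    have hXl : X = 30 * J * T ^ 2 / l := by
      rw [hX, hl]; field_simp
    have hJT : 1 ≤ J * T ^ 2 / l := by
      rw [le_div_iff₀ hl0, one_mul]
      refine le_trans ?_ hJTl
      exact le_mul_of_one_le_left hl0.le (by linarith)
    have hN1 : (1 : ℝ) ≤ N := by rw [hN]; push_cast; linarith [Nat.cast_nonneg (α := ℝ) ⌊X⌋₊]
    have hNup : (N : ℝ) ≤ 31 * (J * T ^ 2 / l) := by
      have : X = 30 * (J * T ^ 2 / l) := by rw [hXl]; ring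
      linarith
    have hlN : l ≤ N := by
      have h1 : l ≤ J * T ^ 2 / l := by
        rw [le_div_iff₀ hl0]; exact hJTl
      have : X = 30 * (J * T ^ 2 / l) := by rw [hXl]; ring
      linarith
    -- the crucial inequality
    have hcr : 50 * N * y * T < L := by
      have h1 : 50 * (N : ℝ) * y * T ≤ 50 * (31 * (9 * y * T ^ 2 / l)) * y * T := by
        have h2 : (J : ℝ) ≤ 9 * y := by linarith
        have h3 : J * T ^ 2 / l ≤ 9 * y * T ^ 2 / l := by gcongr
        have h4 : (N : ℝ) ≤ 31 * (9 * y * T ^ 2 / l) := by linarith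
        gcongr
      have h2 : 50 * (31 * (9 * y * T ^ 2 / l)) * y * T
          = 13950 * y ^ 2 * T ^ 3 / (l * L) * L := by
        field_simp
        ring
      calc 50 * (N : ℝ) * y * T ≤ _ := h1
        _ = 13950 * y ^ 2 * T ^ 3 / (l * L) * L := h2
        _ < 1 * L := mul_lt_mul_of_pos_right c3 hL0
        _ = L := one_mul L
    have hNy : 1 ≤ (N : ℝ) * y := one_le_mul_of_one_le_of_one_le hN1 hy
    have hTL : T ≤ L := by
      have h1 : T ≤ (N * y) * T := le_mul_of_one_le_left hT0.le hNy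
      have h2 : 50 * (N : ℝ) * y * T = 50 * ((N * y) * T) := by ring
      linarith
    have hNy15 : 15 ≤ (N : ℝ) * y := by
      calc (15 : ℝ) ≤ N := by linarith
        _ ≤ N * y := le_mul_of_one_le_right (by linarith) hy
    set Y : ℝ := (N : ℝ) * Real.log (4 * (T / L) * M ^ 2) + Real.log (4 * ((N : ℝ) + 1) * M) + l
      with hY
    have hYb : Y + 4 ≤ 10 * N * y := by
      have h1 : Real.log (4 * (T / L) * M ^ 2) ≤ 2 * y := by
        have h2 : 4 * (T / L) * M ^ 2 ≤ (1 + L) ^ 2 := by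
          have h3 : T / L ≤ 1 := by rw [div_le_one hL0]; exact hTL
          have h4 : 2 * M ≤ 1 + L := by linarith
          calc 4 * (T / L) * M ^ 2 ≤ 4 * 1 * M ^ 2 := by gcongr
            _ = (2 * M) ^ 2 := by ring
            _ ≤ (1 + L) ^ 2 := pow_le_pow_left₀ (by positivity) h4 2
        have h3 := Real.log_le_log (show 0 < 4 * (T / L) * M ^ 2 by positivity) h2
        rw [Real.log_pow] at h3
        push_cast at h3
        linarith
      have h2 : Real.log (4 * ((N : ℝ) + 1) * M) ≤ 2 * N + 1 + y := by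
        have e1 : 4 * ((N : ℝ) + 1) * M = (2 * ((N : ℝ) + 1)) * (2 * M) := by ring
        rw [e1, Real.log_mul (by positivity) (by positivity)]
        have h3 := Real.log_le_sub_one_of_pos (show 0 < 2 * ((N : ℝ) + 1) by positivity)
        linarith
      have h3 : (N : ℝ) * Real.log (4 * (T / L) * M ^ 2) ≤ N * (2 * y) :=
        mul_le_mul_of_nonneg_left h1 (by positivity)
      have h4 : (N : ℝ) ≤ N * y := le_mul_of_one_le_right (by positivity) hy
      have h5 : y ≤ N * y := le_mul_of_one_le_left hy0.le hN1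
      have h6 : (N : ℝ) * (2 * y) = 2 * (N * y) := by ring
      have h7 : 10 * (N : ℝ) * y = 10 * (N * y) := by ring
      rw [hY, h7]
      rw [h6] at h3
      linarith
    set K : ℕ := ⌈Y⌉₊ + 1 with hK
    have hK1 : 1 ≤ K := by omega
    have hKY : Y ≤ K := by
      rw [hK]; push_cast
      have := Nat.le_ceil Y
      linarith
    have hY0 : 0 ≤ Y := by
      have h1 : 0 ≤ Real.log (4 * (T / L) * M ^ 2) := by
        refine Real.log_nonneg ?_
        have h2 : 1 / M ≤ T / L := by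
          rw [div_le_div_iff₀ hMpos hL0, one_mul, ← hlM]
          exact mul_le_mul_of_nonneg_right hTl hMpos.le
        calc (1 : ℝ) ≤ 4 * (1 / M) * M ^ 2 := by
              have : 4 * (1 / M) * M ^ 2 = 4 * M := by field_simp
              rw [this]; linarith
          _ ≤ 4 * (T / L) * M ^ 2 := by gcongr
      have h2 : 0 ≤ Real.log (4 * ((N : ℝ) + 1) * M) := by
        refine Real.log_nonneg ?_
        exact one_le_mul_of_one_le_of_one_le (by linarith) (by linarith)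
      positivity
    have hK2 : (K : ℝ) ≤ Y + 2 := by
      rw [hK]; push_cast
      have := (Nat.ceil_lt_add_one hY0).le
      linarith
    have hfin := Co t I J K M T S' ht2 hK1 hIone hJone hM2 hM15 (fun m hm => hS m (hS'S hm))
      c1 c2 hTl ?_ ?_
    · rw [hS'c] at hfin
      exact absurd hfin (not_le.2 hNX)
    · -- condition on K
      have h1 : 1 / (2 * M) ≤ T / (2 * L) := by
        rw [div_le_div_iff₀ (by positivity) (by positivity), one_mul, ← hlM]
        have h2 := mul_le_mul_of_nonneg_right hTl hMpos.le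
        linarith
      have h2 : (K : ℝ) + 1 ≤ 10 * N * y := by linarith
      calc 2 * ((K : ℝ) + 1) * (2 * (T / L) + 1 / (2 * M))
          ≤ 2 * (10 * N * y) * (2 * (T / L) + T / (2 * L)) := by gcongr
        _ = 50 * N * y * T / L := by field_simp; ring
        _ < 1 := by rw [div_lt_one hL0]; exact hcr
    · rw [hS'c]
      have hlog3 : 1 ≤ Real.log 3 := by
        rw [Real.le_log_iff_exp_le (by norm_num)]
        have := Real.exp_one_lt_d9
        linarith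
      have : (K : ℝ) ≤ K * Real.log 3 := le_mul_of_one_le_right (Nat.cast_nonneg K) hlog3
      exact hKY.trans this
  refine hmain.trans ?_
  have h1 : 30 * J * T ^ 2 * M / L = 30 * J * T ^ 2 / l := by rw [hl]; field_simp
  rw [h1]
  have h2 : (J : ℝ) ≤ 9 * y := by linarith
  have h3 : (l + y) ^ 2 / l ≤ 2 * (l + y ^ 2) := by
    rw [div_le_iff₀ hl0]
    have h4 : (l + y) ^ 2 ≤ 2 * (l ^ 2 + y ^ 2) := add_sq_le
    have h5 : y ^ 2 * 1 ≤ y ^ 2 * l := mul_le_mul_of_nonneg_left (by linarith) (sq_nonneg y)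
    have h6 : 2 * (l + y ^ 2) * l = 2 * (l ^ 2 + y ^ 2 * l) := by ring
    rw [h6]
    linarith
  calc 30 * J * T ^ 2 / l ≤ 30 * (9 * y) * T ^ 2 / l := by gcongr
    _ = 27 * 10 ^ 7 * y ^ 3 * e ^ 2 * ((l + y) ^ 2 / l) := by rw [hT]; ring
    _ ≤ 27 * 10 ^ 7 * y ^ 3 * e ^ 2 * (2 * (l + y ^ 2)) :=
        mul_le_mul_of_nonneg_left h3 (by positivity)
    _ = 54 * 10 ^ 7 * (y ^ 3 * e ^ 2 * (l + y ^ 2)) := by ring
    _ ≤ 10 ^ 9 * (y ^ 3 * e ^ 2 * (l + y ^ 2)) :=
        mul_le_mul_of_nonneg_right (by norm_num) (by positivity)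
    _ = _ := by ring

end Pool.Agent.H86.SM
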