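import Pool.Agent.H3.Sing.Block3
import Pool.Agent.H86.SM.Outer

/-! # Singmaster: the solutions with `15 m ≤ log t`, sharper form -/

namespace Pool.Agent.H86.SM

open Finset

theorem outer3 (B : BlockSt3) : OuterSt3 := by
  obtain ⟨L₀, hL₀⟩ := B
  obtain ⟨L₀', hL₀'⟩ := Block3A.large
  set L₁ : ℝ := max (max L₀ L₀') 1 with hL₁
  have hL₁0 : L₀ ≤ L₁ := (le_max_left _ _).trans (le_max_left _ _)
  have hL₁0' : L₀' ≤ L₁ := (le_max_right _ _).trans (le_max_left _ _)
  have hL₁1 : 1 ≤ L₁ := le_max_right _ _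
  have hlog2 : 0 < Real.log 2 := Real.log_pos (by norm_num)
  set c : ℝ := Real.log 2 ^ (1 / 2 : ℝ) with hc
  have hc0 : 0 < c := Real.rpow_pos_of_pos hlog2 _
  have hb : (1 : ℝ) < 11 / 10 := by norm_num
  have hlb : 0 < Real.log (11 / 10) := Real.log_pos hb
  have hlb11 : (1 : ℝ) / 11 ≤ Real.log (11 / 10) := by
    have := Real.one_sub_inv_le_log_of_pos (show (0 : ℝ) < 11 / 10 by norm_num)
    refine le_trans (le_of_eq ?_) this
    norm_num
  set C₁ : ℝ := L₁ / c with hC₁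
  have hC₁0 : 0 < C₁ := by positivity
  refine ⟨C₁ + (1 + 2 * 10 ^ 12), ?_⟩
  intro t S ht hS
  set L : ℝ := Real.log t with hL
  have ht' : (2 : ℝ) ≤ t := by exact_mod_cast ht
  have hL2 : Real.log 2 ≤ L := Real.log_le_log (by norm_num) ht'
  have hLpos : 0 < L := lt_of_lt_of_le hlog2 hL2
  have hydef : 1 + Real.log (1 + L) = Lam3 L := rfl
  rw [hydef]
  have hy : 1 ≤ Lam3 L := by
    rw [← hydef]
    have := Real.log_nonneg (show (1 : ℝ) ≤ 1 + L by linarith)
    linarith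
  set y : ℝ := Lam3 L with hyd
  have hy0 : 0 < y := by linarith
  have hy31 : 1 ≤ y ^ 3 := one_le_pow₀ hy
  have hLh : 0 < L ^ (1 / 2 : ℝ) := Real.rpow_pos_of_pos hLpos _
  have hLd0 : 0 < L ^ (1 / 2 : ℝ) * y ^ 3 := by positivity
  rw [mul_assoc]
  by_cases hcase : L ≤ L₁
  · have h1 : (S.card : ℝ) ≤ L := by
      apply OuterA.card_le_of_le L hLpos.le
      intro m hm
      obtain ⟨h1, h2⟩ := hS m hm
      have hm0 : (0 : ℝ) ≤ m := Nat.cast_nonneg m
      exact ⟨h1.1, by linarith⟩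
    have h2 : c ≤ L ^ (1 / 2 : ℝ) * y ^ 3 := by
      have h3 : c ≤ L ^ (1 / 2 : ℝ) := Real.rpow_le_rpow hlog2.le hL2 (by norm_num)
      exact h3.trans (le_mul_of_one_le_right hLh.le hy31)
    have h3 : L₁ ≤ C₁ * (L ^ (1 / 2 : ℝ) * y ^ 3) := by
      have : L₁ = C₁ * c := by rw [hC₁]; field_simp
      calc L₁ = C₁ * c := this
        _ ≤ C₁ * (L ^ (1 / 2 : ℝ) * y ^ 3) := mul_le_mul_of_nonneg_left h2 hC₁0.le
    have h4 : 0 ≤ (1 + 2 * 10 ^ 12) * (L ^ (1 / 2 : ℝ) * y ^ 3) := by positivity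
    calc (S.card : ℝ) ≤ L := h1
      _ ≤ L₁ := hcase
      _ ≤ C₁ * (L ^ (1 / 2 : ℝ) * y ^ 3) := h3
      _ ≤ (C₁ + (1 + 2 * 10 ^ 12)) * (L ^ (1 / 2 : ℝ) * y ^ 3) := by rw [add_mul]; linarith
  · have hcase' : L₁ < L := not_le.1 hcase
    have hL1 : 1 < L := lt_of_le_of_lt hL₁1 hcase'
    obtain ⟨hL4, -, hy10⟩ := hL₀' L (by linarith)
    rw [← hyd] at hy10
    have hsq : L ^ (1 / 2 : ℝ) * L ^ (1 / 2 : ℝ) = L := by
      rw [← Real.rpow_add hLpos]; norm_num
    have hy5 : y ^ 5 ≤ L ^ (1 / 2 : ℝ) := by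
      have h1 : (y ^ 5) ^ 2 ≤ (L ^ (1 / 2 : ℝ)) ^ 2 := by
        rw [div_le_one hLpos] at hy10
        calc (y ^ 5) ^ 2 = y ^ 10 := by ring
          _ ≤ L := hy10
          _ = (L ^ (1 / 2 : ℝ)) ^ 2 := by rw [pow_two, hsq]
      exact (pow_le_pow_iff_left₀ (by positivity) hLh.le two_ne_zero).1 h1
    set M₀ : ℝ := L ^ (1 / 2 : ℝ) * y ^ 3 with hM₀
    have hM₀pos : 0 < M₀ := hLd0
    have hM₀1 : 1 ≤ M₀ :=
      one_le_mul_of_one_le_of_one_le (Real.one_le_rpow hL1.le (by norm_num)) hy31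
    -- the small solutions
    set S₀ := S.filter (fun m : ℕ => (m : ℝ) < M₀) with hS₀
    set S₁ := S.filter (fun m : ℕ => ¬ ((m : ℝ) < M₀)) with hS₁
    have hcard : S.card = S₀.card + S₁.card :=
      (Finset.card_filter_add_card_filter_not (s := S) (fun m : ℕ => (m : ℝ) < M₀)).symm
    have hS₀c : (S₀.card : ℝ) ≤ M₀ := by
      refine OuterA.card_le_of_le M₀ hM₀pos.le S₀ ?_
      intro m hm
      obtain ⟨h1, h2⟩ := Finset.mem_filter.1 hm
      exact ⟨(hS m h1).1.1, h2.le⟩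
    -- the blocks
    set kk : ℕ → ℕ := fun m => ⌊Real.logb (11 / 10) ((m : ℝ) / M₀)⌋₊ with hkk
    set K : ℕ := ⌊Real.logb (11 / 10) L⌋₊ with hK
    have hmaps : ∀ m ∈ S₁, kk m ∈ Finset.range (K + 1) := by
      intro m hm
      obtain ⟨h1, h2⟩ := Finset.mem_filter.1 hm
      have h2' : M₀ ≤ (m : ℝ) := not_lt.1 h2
      have h3 := (hS m h1).2
      have hm0 : (0 : ℝ) < m := lt_of_lt_of_le hM₀pos h2'
      rw [Finset.mem_range]
      refine Nat.lt_succ_of_le (Nat.floor_le_floor ?_)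
      apply Real.logb_le_logb_of_le hb (by positivity)
      rw [div_le_iff₀ hM₀pos]
      nlinarith
    have hfib : ∀ k ∈ Finset.range (K + 1),
        ((S₁.filter (fun m => kk m = k)).card : ℝ) ≤
          128 * 10 ^ 9 * (y ^ 2 * L ^ (1 / 2 : ℝ)) := by
      intro k _
      by_cases hemp : (S₁.filter (fun m => kk m = k)).Nonempty
      · obtain ⟨m₀, hm₀⟩ := hemp
        set M : ℝ := M₀ * (11 / 10 : ℝ) ^ k with hM
        have hpt : ∀ m ∈ S₁.filter (fun m => kk m = k),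
            m ∈ Sol t ∧ M ≤ m ∧ (m : ℝ) ≤ 11 / 10 * M := by
          intro m hm
          obtain ⟨h1, h2⟩ := Finset.mem_filter.1 hm
          obtain ⟨h3, h4⟩ := Finset.mem_filter.1 h1
          have h5 := OuterA.block_of M₀ m hM₀pos (not_lt.1 h4)
          have h6 : ⌊Real.logb (11 / 10) ((m : ℝ) / M₀)⌋₊ = k := h2
          rw [h6] at h5
          exact ⟨(hS m h3).1, h5.1, h5.2⟩
        have hM1 : M₀ ≤ M := by
          rw [hM]
          exact le_mul_of_one_le_right hM₀pos.le (one_le_pow₀ hb.le)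
        have hM2 : 15 * M ≤ L := by
          have h1 := (hpt m₀ hm₀).2.1
          have h2 := (hS m₀ (Finset.mem_filter.1 (Finset.mem_filter.1 hm₀).1).1).2
          have h3 : 15 * M ≤ 15 * (m₀ : ℝ) := by linarith
          exact le_trans h3 h2
        have h1 := hL₀ t M _ (by linarith) hM1 hM2 hpt
        refine h1.trans ?_
        rw [← hL, ← hyd]
        have he5 := Block3A.ell_ge hy
        have he8 := Block3A.ell_le hy
        set e : ℝ := Real.log (160 * y) with he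
        have h2 : e ^ 2 ≤ 64 * y ^ 2 := by
          calc e ^ 2 ≤ (8 * y) ^ 2 := pow_le_pow_left₀ (by linarith) he8 2
            _ = 64 * y ^ 2 := by ring
        have h3 : L / M ≤ L ^ (1 / 2 : ℝ) / y ^ 3 := by
          have h4 : L / M ≤ L / M₀ := div_le_div_of_nonneg_left hLpos.le hM₀pos hM1
          refine h4.trans (le_of_eq ?_)
          rw [hM₀]
          nth_rewrite 1 [← hsq]
          field_simp
        have h4 : y ^ 3 * (L / M + y ^ 2) ≤ 2 * L ^ (1 / 2 : ℝ) := by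
          calc y ^ 3 * (L / M + y ^ 2) ≤ y ^ 3 * (L ^ (1 / 2 : ℝ) / y ^ 3 + y ^ 2) := by gcongr
            _ = L ^ (1 / 2 : ℝ) + y ^ 5 := by field_simp
            _ ≤ 2 * L ^ (1 / 2 : ℝ) := by linarith
        calc 10 ^ 9 * y ^ 3 * e ^ 2 * (L / M + y ^ 2)
            = 10 ^ 9 * e ^ 2 * (y ^ 3 * (L / M + y ^ 2)) := by ring
          _ ≤ 10 ^ 9 * (64 * y ^ 2) * (2 * L ^ (1 / 2 : ℝ)) := by
              refine mul_le_mul ?_ h4 ?_ (by positivity)
              · exact mul_le_mul_of_nonneg_left h2 (by positivity)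
              · have hMp : 0 < M := lt_of_lt_of_le hM₀pos hM1
                positivity
          _ = 128 * 10 ^ 9 * (y ^ 2 * L ^ (1 / 2 : ℝ)) := by ring
      · rw [Finset.not_nonempty_iff_eq_empty.1 hemp]
        simp only [Finset.card_empty, Nat.cast_zero]
        positivity
    have hS₁c : (S₁.card : ℝ) ≤ ((K : ℝ) + 1) * (128 * 10 ^ 9 * (y ^ 2 * L ^ (1 / 2 : ℝ))) := by
      rw [Finset.card_eq_sum_card_fiberwise hmaps]
      push_cast
      refine le_trans (Finset.sum_le_sum hfib) ?_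
      rw [Finset.sum_const, Finset.card_range, nsmul_eq_mul]
      push_cast
      exact le_rfl
    have hKb : (K : ℝ) + 1 ≤ 11 * y := by
      have hlogL : 0 ≤ Real.log L := Real.log_nonneg hL1.le
      have h1 : (K : ℝ) ≤ Real.logb (11 / 10) L :=
        Nat.floor_le (Real.logb_nonneg hb hL1.le)
      have h2 : Real.log L ≤ y - 1 := by
        have h3 : Real.log L ≤ Real.log (1 + L) := Real.log_le_log hLpos (by linarith)
        linarith
      rw [Real.logb] at h1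
      have h3 : Real.log L / Real.log (11 / 10) ≤ 11 * (y - 1) := by
        rw [div_le_iff₀ hlb]
        have h4 : 11 * (y - 1) * (1 / 11) ≤ 11 * (y - 1) * Real.log (11 / 10) :=
          mul_le_mul_of_nonneg_left hlb11 (by linarith)
        linarith
      linarith
    have hS₁d : (S₁.card : ℝ) ≤ 2 * 10 ^ 12 * M₀ := by
      refine le_trans hS₁c ?_
      calc ((K : ℝ) + 1) * (128 * 10 ^ 9 * (y ^ 2 * L ^ (1 / 2 : ℝ)))
          ≤ (11 * y) * (128 * 10 ^ 9 * (y ^ 2 * L ^ (1 / 2 : ℝ))) :=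
            mul_le_mul_of_nonneg_right hKb (by positivity)
        _ = 1408 * 10 ^ 9 * M₀ := by rw [hM₀]; ring
        _ ≤ 2 * 10 ^ 12 * M₀ := mul_le_mul_of_nonneg_right (by norm_num) hM₀pos.le
    have h0 : 0 ≤ C₁ * M₀ := by positivity
    have hfin : (S.card : ℝ) = S₀.card + S₁.card := by exact_mod_cast hcard
    calc (S.card : ℝ) = S₀.card + S₁.card := hfin
      _ ≤ M₀ + 2 * 10 ^ 12 * M₀ := add_le_add hS₀c hS₁d
      _ ≤ (C₁ + (1 + 2 * 10 ^ 12)) * M₀ := by
          have h9 : (C₁ + (1 + 2 * 10 ^ 12)) * M₀ = C₁ * M₀ +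
              (M₀ + 2 * 10 ^ 12 * M₀) := by ring
          rw [h9]; linarith

end Pool.Agent.H86.SM
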