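import Pool.Agent.H43.Sing.CSt

/-!
# Singmaster, centre region: the zero estimate
-/

namespace Pool.Agent.H43.Sing

open Metric Filter Topology

lemma zz_pow_sub {a b : ℂ} {M : ℝ} (hM : 1 ≤ M) (ha : ‖a‖ ≤ M) (hb : ‖b‖ ≤ M) (k : ℕ) :
    ‖a ^ k - b ^ k‖ ≤ k * M ^ k * ‖a - b‖ := by
  have hM0 : 0 ≤ M := by linarith
  induction k with
  | zero => simp
  | succ k ih =>
    have h1 : a ^ (k + 1) - b ^ (k + 1) = a * (a ^ k - b ^ k) + (a - b) * b ^ k := by ring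
    rw [h1]
    have h2 : ‖b ^ k‖ ≤ M ^ k := by
      rw [norm_pow]; exact pow_le_pow_left₀ (norm_nonneg _) hb k
    have h3 : M ^ k ≤ M ^ (k + 1) := pow_le_pow_right₀ hM (Nat.le_succ k)
    calc ‖a * (a ^ k - b ^ k) + (a - b) * b ^ k‖
        ≤ ‖a‖ * ‖a ^ k - b ^ k‖ + ‖a - b‖ * ‖b ^ k‖ := by
          refine (norm_add_le _ _).trans ?_
          rw [norm_mul, norm_mul]
      _ ≤ M * (k * M ^ k * ‖a - b‖) + ‖a - b‖ * M ^ (k + 1) := by
          refine add_le_add (mul_le_mul ha ih (norm_nonneg _) hM0) ?_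
          exact mul_le_mul_of_nonneg_left (h2.trans h3) (norm_nonneg _)
      _ = ((k + 1 : ℕ) : ℝ) * M ^ (k + 1) * ‖a - b‖ := by push_cast; ring

/-- the polynomial `∑ q_ij z^i y^(i+j)` -/
noncomputable def Gz (I : ℕ) (q : Fin I × Fin I → ℝ) (z y : ℂ) : ℂ :=
  ∑ u : Fin I × Fin I, (q u : ℂ) * (z ^ (u.1 : ℕ) * y ^ ((u.1 : ℕ) + (u.2 : ℕ)))

lemma zz_card (I : ℕ) : (Finset.univ : Finset (Fin I × Fin I)).card = I ^ 2 := by
  rw [Finset.card_univ, Fintype.card_prod, Fintype.card_fin]; ring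

lemma Gz_bound {I : ℕ} {q : Fin I × Fin I → ℝ} (hq : ∀ u, |q u| ≤ 1) {z y : ℂ} {M : ℝ}
    (hM : 1 ≤ M) (hz : ‖z‖ ≤ 1) (hy : ‖y‖ ≤ M) : ‖Gz I q z y‖ ≤ (I : ℝ) ^ 2 * M ^ (2 * I) := by
  unfold Gz
  refine (norm_sum_le _ _).trans ?_
  have h1 : ∀ u ∈ (Finset.univ : Finset (Fin I × Fin I)),
      ‖(q u : ℂ) * (z ^ (u.1 : ℕ) * y ^ ((u.1 : ℕ) + (u.2 : ℕ)))‖ ≤ M ^ (2 * I) := by
    intro u _
    rw [norm_mul, norm_mul, norm_pow, norm_pow, Complex.norm_real, Real.norm_eq_abs]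
    have h2 : ‖z‖ ^ (u.1 : ℕ) ≤ 1 := pow_le_one₀ (norm_nonneg _) hz
    have h3 : ‖y‖ ^ ((u.1 : ℕ) + (u.2 : ℕ)) ≤ M ^ (2 * I) :=
      (pow_le_pow_left₀ (norm_nonneg _) hy _).trans
        (pow_le_pow_right₀ hM (by have := u.1.2; have := u.2.2; omega))
    calc |q u| * (‖z‖ ^ (u.1 : ℕ) * ‖y‖ ^ ((u.1 : ℕ) + (u.2 : ℕ)))
        ≤ 1 * (1 * M ^ (2 * I)) := by
          refine mul_le_mul (hq u) (mul_le_mul h2 h3 (by positivity) zero_le_one)
            (by positivity) zero_le_one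
      _ = M ^ (2 * I) := by ring
  refine (Finset.sum_le_sum h1).trans (le_of_eq ?_)
  rw [Finset.sum_const, zz_card, nsmul_eq_mul]
  push_cast; ring

lemma Gz_sub {I : ℕ} {q : Fin I × Fin I → ℝ} (hq : ∀ u, |q u| ≤ 1) {z y y' : ℂ} {M : ℝ}
    (hM : 1 ≤ M) (hz : ‖z‖ ≤ 1) (hy : ‖y‖ ≤ M) (hy' : ‖y'‖ ≤ M) :
    ‖Gz I q z y - Gz I q z y'‖ ≤ (I : ℝ) ^ 2 * (2 * I * M ^ (2 * I) * ‖y - y'‖) := by
  unfold Gz
  rw [← Finset.sum_sub_distrib]
  refine (norm_sum_le _ _).trans ?_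
  have h1 : ∀ u ∈ (Finset.univ : Finset (Fin I × Fin I)),
      ‖(q u : ℂ) * (z ^ (u.1 : ℕ) * y ^ ((u.1 : ℕ) + (u.2 : ℕ)))
        - (q u : ℂ) * (z ^ (u.1 : ℕ) * y' ^ ((u.1 : ℕ) + (u.2 : ℕ)))‖
        ≤ 2 * I * M ^ (2 * I) * ‖y - y'‖ := by
    intro u _
    rw [← mul_sub, ← mul_sub, norm_mul, norm_mul, norm_pow, Complex.norm_real, Real.norm_eq_abs]
    have h2 : ‖z‖ ^ (u.1 : ℕ) ≤ 1 := pow_le_one₀ (norm_nonneg _) hz
    have h3 := zz_pow_sub hM hy hy' ((u.1 : ℕ) + (u.2 : ℕ))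
    have hk : (u.1 : ℕ) + (u.2 : ℕ) ≤ 2 * I := by have := u.1.2; have := u.2.2; omega
    have h4 : (((u.1 : ℕ) + (u.2 : ℕ) : ℕ) : ℝ) * M ^ ((u.1 : ℕ) + (u.2 : ℕ))
        ≤ 2 * I * M ^ (2 * I) := by
      refine mul_le_mul ?_ (pow_le_pow_right₀ hM hk) (by positivity) (by positivity)
      exact_mod_cast hk
    have h5 : ‖y ^ ((u.1 : ℕ) + (u.2 : ℕ)) - y' ^ ((u.1 : ℕ) + (u.2 : ℕ))‖
        ≤ 2 * I * M ^ (2 * I) * ‖y - y'‖ :=
      h3.trans (mul_le_mul_of_nonneg_right h4 (norm_nonneg _))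
    calc |q u| * (‖z‖ ^ (u.1 : ℕ) * ‖y ^ ((u.1 : ℕ) + (u.2 : ℕ)) - y' ^ ((u.1 : ℕ) + (u.2 : ℕ))‖)
        ≤ 1 * (1 * (2 * I * M ^ (2 * I) * ‖y - y'‖)) := by
          refine mul_le_mul (hq u) (mul_le_mul h2 h5 (norm_nonneg _) zero_le_one)
            (by positivity) zero_le_one
      _ = _ := by ring
  refine (Finset.sum_le_sum h1).trans (le_of_eq ?_)
  rw [Finset.sum_const, zz_card, nsmul_eq_mul]
  push_cast; ring

lemma gq_eq_Gz (I : ℕ) (q : Fin I × Fin I → ℝ) (x : ℝ) :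
    ((gq I q x : ℝ) : ℂ) = Gz I q (x : ℂ) ((1 / hR x : ℝ) : ℂ) := by
  unfold gq Gz
  push_cast
  rfl

/-- choice of the threshold -/
lemma zz_large (C c1 c2 R δ : ℝ) (hR : 0 < R) (hδ : 0 < δ) : ∃ L1 : ℝ, ∀ L : ℝ, L1 ≤ L →
    1 ≤ L ∧ 2 * C < L ∧ 1 / R ≤ L ∧ c1 / L ≤ δ ∧ c2 * ((1 + Real.log L) / L) ≤ δ ∧
      C * ((1 + Real.log L) / L) ≤ 1 := by
  have h0 : Tendsto (fun L : ℝ => (1 + Real.log L) / L) atTop (𝓝 0) := by
    have h1 : Tendsto (fun L : ℝ => 1 / L + Real.log L / L) atTop (𝓝 (0 + 0)) := by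
      refine Tendsto.add ?_ ?_
      · exact tendsto_const_nhds.div_atTop tendsto_id
      · have := Real.tendsto_pow_log_div_mul_add_atTop 1 0 1 one_ne_zero
        simpa using this
    rw [add_zero] at h1
    refine h1.congr fun L => ?_
    rw [add_div]
  have h1 : ∀ᶠ L : ℝ in atTop, 1 ≤ L := eventually_ge_atTop 1
  have h2 : ∀ᶠ L : ℝ in atTop, 2 * C < L := eventually_gt_atTop _
  have h3 : ∀ᶠ L : ℝ in atTop, 1 / R ≤ L := eventually_ge_atTop _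
  have h4 : ∀ᶠ L : ℝ in atTop, c1 / L ≤ δ := by
    have : Tendsto (fun L : ℝ => c1 / L) atTop (𝓝 0) := tendsto_const_nhds.div_atTop tendsto_id
    exact this.eventually_le_const hδ
  have h5 : ∀ᶠ L : ℝ in atTop, c2 * ((1 + Real.log L) / L) ≤ δ := by
    have : Tendsto (fun L : ℝ => c2 * ((1 + Real.log L) / L)) atTop (𝓝 (c2 * 0)) :=
      h0.const_mul c2
    rw [mul_zero] at this
    exact this.eventually_le_const hδ
  have h6 : ∀ᶠ L : ℝ in atTop, C * ((1 + Real.log L) / L) ≤ 1 := by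
    have : Tendsto (fun L : ℝ => C * ((1 + Real.log L) / L)) atTop (𝓝 (C * 0)) :=
      h0.const_mul C
    rw [mul_zero] at this
    exact this.eventually_le_const one_pos
  obtain ⟨L1, hL1⟩ := eventually_atTop.1 (h1.and (h2.and (h3.and (h4.and (h5.and h6)))))
  exact ⟨L1, fun L hL => hL1 L hL⟩

theorem zero (H : CIterSt) : CZeroSt := by
  classical
  intro x0 I hx0 hx1
  obtain ⟨R, C0, hRp, hRx, hRx', hC0, HA⟩ := H x0 hx0 hx1
  obtain ⟨δ, hδ, hlow⟩ := gq_lower I (a := x0 - R / 24) (b := x0 + R / 24) (by linarith)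
    (by linarith) (by linarith)
  -- the constant V
  set B : ℝ := (I : ℝ) ^ 2 * C0 ^ (2 * I) with hB
  have hB0 : 0 ≤ B := by positivity
  obtain ⟨V, hV⟩ : ∃ V : ℕ, B * (1 / 3) ^ V ≤ δ / 8 := by
    have h1 : Tendsto (fun V : ℕ => B * (1 / 3 : ℝ) ^ V) atTop (𝓝 (B * 0)) :=
      (tendsto_pow_atTop_nhds_zero_of_lt_one (by norm_num) (by norm_num)).const_mul B
    rw [mul_zero] at h1
    obtain ⟨V, hV⟩ := (h1.eventually_le_const (show (0 : ℝ) < δ / 8 by positivity)).exists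
    exact ⟨V, hV⟩
  obtain ⟨C, L0, hC, hL0, HN⟩ := HA (2 * V + 2)
  set c1 : ℝ := V * ((I : ℝ) ^ 2 * (2 * I * C0 ^ (2 * I) * C)) * (R * C0 ^ 2) ^ V with hc1
  set c2 : ℝ := (I : ℝ) ^ 2 * (2 * I * (C0 + 1) ^ (2 * I) * C) with hc2
  obtain ⟨L1, hL1⟩ := zz_large C c1 c2 R (δ / 16) hRp (by positivity)
  refine ⟨V, R / 24, max L0 L1, by positivity, hL0.trans (le_max_left _ _), ?_⟩
  intro t S p hLt hp hS hzero
  set L : ℝ := Real.log t with hL
  obtain ⟨hLone, hL2C, hLR, hLc1, hLc2, hLC⟩ := hL1 L ((le_max_right _ _).trans hLt)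
  have hLpos : 0 < L := by linarith
  obtain ⟨N, hNd, hNb, hNh, hNs⟩ := HN L ((le_max_left _ _).trans hLt)
  by_contra hcard
  push Not at hcard
  obtain ⟨S', hS'S, hS'c⟩ := Finset.exists_subset_card_eq hcard.le
  -- normalisation
  set q0 : Fin I × Fin I → ℝ := fun u => p u * L ^ ((u.1 : ℕ) + (u.2 : ℕ)) with hq0
  have hq0ne : q0 ≠ 0 := by
    intro h0
    apply hp
    ext u
    have := congrFun h0 u
    simp only [hq0, Pi.zero_apply] at this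
    exact (mul_eq_zero.1 this).resolve_right (pow_ne_zero _ hLpos.ne')
  have hq0n : 0 < ‖q0‖ := norm_pos_iff.2 hq0ne
  set q : Fin I × Fin I → ℝ := fun u => q0 u / ‖q0‖ with hq
  have hq1 : ∀ u, |q u| ≤ 1 := by
    intro u
    rw [hq]
    simp only
    rw [abs_div, abs_of_pos hq0n, div_le_one hq0n, ← Real.norm_eq_abs]
    exact norm_le_pi_norm q0 u
  have hqn : ‖q‖ = 1 := by
    have : q = (‖q0‖)⁻¹ • q0 := by
      ext u; simp only [hq, Pi.smul_apply, smul_eq_mul]; ring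
    rw [this, norm_smul, norm_inv, norm_norm, inv_mul_cancel₀ hq0n.ne']
  -- the function
  set G : ℂ → ℂ := fun z => Gz I q z (N z / (L : ℂ)) with hG
  have hGd : DifferentiableOn ℂ G (ball (x0 : ℂ) (2 * (R / 2))) := by
    have e1 : 2 * (R / 2) = R := by ring
    rw [e1]
    simp only [hG, Gz]
    refine DifferentiableOn.fun_sum fun u _ => ?_
    refine (differentiableOn_const _).mul ?_
    exact (differentiableOn_id.pow _).mul ((hNd.div_const _).pow _)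
  have hLc : (L : ℂ) ≠ 0 := by exact_mod_cast hLpos.ne'
  have hNL : ∀ z ∈ ball (x0 : ℂ) R, ‖N z / (L : ℂ)‖ ≤ C0 := by
    intro z hz
    rw [norm_div, Complex.norm_real, Real.norm_eq_abs, abs_of_pos hLpos, div_le_iff₀ hLpos]
    exact hNb z hz
  have hz1 : ∀ z ∈ ball (x0 : ℂ) R, ‖z‖ ≤ 1 := by
    intro z hz
    have h1 : dist z (x0 : ℂ) < R := hz
    rw [dist_eq_norm] at h1
    calc ‖z‖ = ‖(z - (x0 : ℂ)) + (x0 : ℂ)‖ := by rw [sub_add_cancel]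
      _ ≤ ‖z - (x0 : ℂ)‖ + ‖(x0 : ℂ)‖ := norm_add_le _ _
      _ ≤ R + x0 := by
          rw [Complex.norm_real, Real.norm_eq_abs, abs_of_pos hx0]; linarith
      _ ≤ 1 := by linarith
  have hGB : ∀ z, dist z (x0 : ℂ) ≤ R / 2 → ‖G z‖ ≤ B := by
    intro z hz
    have hzb : z ∈ ball (x0 : ℂ) R := by rw [mem_ball]; linarith
    exact Gz_bound hq1 hC0 (hz1 z hzb) (hNL z hzb)
  -- the nodes
  set nd : ℕ × ℕ → ℂ := fun r => (((r.1 : ℝ) / r.2 : ℝ) : ℂ) with hnd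
  have hprop : ∀ r ∈ S, 1 ≤ r.1 ∧ r.1 < r.2 ∧ Real.log (r.2.choose r.1 : ℝ) = L ∧
      |(r.1 : ℝ) / r.2 - x0| ≤ R / 24 := by
    intro r hr
    obtain ⟨h1, h2, h3, h4⟩ := hS r hr
    exact ⟨h1, h2, by rw [h3], h4⟩
  have hNr : ∀ r ∈ S, ‖N (nd r) - ((r.2 : ℕ) : ℂ)‖ ≤ C / L ^ (2 * V + 2) ∧ (r.2 : ℝ) ≤ C0 * L := by
    intro r hr
    obtain ⟨h1, h2, h3, h4⟩ := hprop r hr
    exact hNs r.1 r.2 h1 h2 (by linarith) h3
  have hdist : ∀ r ∈ S, dist (nd r) (x0 : ℂ) ≤ R / 24 := by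
    intro r hr
    obtain ⟨h1, h2, h3, h4⟩ := hprop r hr
    rw [dist_eq_norm, hnd]
    simp only
    rw [← Complex.ofReal_sub, Complex.norm_real, Real.norm_eq_abs]
    exact h4
  have hCA : C / L ^ (2 * V + 2) ≤ C / L := by
    refine div_le_div_of_nonneg_left hC hLpos ?_
    calc L = L ^ 1 := (pow_one L).symm
      _ ≤ L ^ (2 * V + 2) := pow_le_pow_right₀ hLone (by omega)
  have hCA2 : C / L < 1 / 2 := by
    rw [div_lt_iff₀ hLpos]; linarith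
  -- separation
  have hsepS : ∀ r ∈ S, ∀ r' ∈ S, r ≠ r' → 1 / (C0 * L) ^ 2 ≤ dist (nd r) (nd r') := by
    intro r hr r' hr' hne
    obtain ⟨h1, h2, h3, h4⟩ := hprop r hr
    obtain ⟨h1', h2', h3', h4'⟩ := hprop r' hr'
    have hn0 : (0 : ℝ) < r.2 := by
      have : 0 < r.2 := by omega
      exact_mod_cast this
    have hn0' : (0 : ℝ) < r'.2 := by
      have : 0 < r'.2 := by omega
      exact_mod_cast this
    have hw : (r.1 : ℤ) * r'.2 - r'.1 * r.2 ≠ 0 := by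
      intro h0
      have hwr : (r.1 : ℝ) * r'.2 = r'.1 * r.2 := by
        have : (r.1 : ℤ) * r'.2 = r'.1 * r.2 := by linarith
        exact_mod_cast this
      have hwe : (r.1 : ℝ) / r.2 = (r'.1 : ℝ) / r'.2 := by
        rw [div_eq_div_iff hn0.ne' hn0'.ne']; exact hwr
      have hnde : nd r = nd r' := by simp only [hnd, hwe]
      have a1 := (hNr r hr).1
      have a2 := (hNr r' hr').1
      rw [hnde] at a1
      have a3 : ‖((r.2 : ℕ) : ℂ) - ((r'.2 : ℕ) : ℂ)‖ < 1 := by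
        calc ‖((r.2 : ℕ) : ℂ) - ((r'.2 : ℕ) : ℂ)‖
            = ‖(N (nd r') - ((r'.2 : ℕ) : ℂ)) - (N (nd r') - ((r.2 : ℕ) : ℂ))‖ := by
              congr 1; ring
          _ ≤ ‖N (nd r') - ((r'.2 : ℕ) : ℂ)‖ + ‖N (nd r') - ((r.2 : ℕ) : ℂ)‖ := norm_sub_le _ _
          _ < 1 := by linarith
      have a4 : r.2 = r'.2 := by
        have e1 : ((r.2 : ℕ) : ℂ) - ((r'.2 : ℕ) : ℂ) = (((r.2 : ℤ) - (r'.2 : ℤ) : ℤ) : ℂ) := by
          push_cast; ring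
        rw [e1, Complex.norm_intCast] at a3
        have a5 : |(r.2 : ℤ) - (r'.2 : ℤ)| < 1 := by exact_mod_cast a3
        rw [Int.abs_lt_one_iff] at a5
        omega
      apply hne
      have a6 : (r.1 : ℝ) = r'.1 := by
        rw [a4] at hwr
        exact mul_right_cancel₀ hn0'.ne' hwr
      exact Prod.ext (by exact_mod_cast a6) a4
    have hone : (1 : ℝ) ≤ |(r.1 : ℝ) * r'.2 - r'.1 * r.2| := by
      have : (1 : ℤ) ≤ |(r.1 : ℤ) * r'.2 - r'.1 * r.2| := Int.one_le_abs hw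
      exact_mod_cast this
    rw [dist_eq_norm]
    simp only [hnd]
    rw [← Complex.ofReal_sub, Complex.norm_real, Real.norm_eq_abs, div_sub_div _ _ hn0.ne' hn0'.ne',
      abs_div, abs_of_pos (mul_pos hn0 hn0')]
    refine div_le_div₀ (abs_nonneg _) ?_ (mul_pos hn0 hn0') ?_
    · rw [mul_comm (r.2 : ℝ) (r'.1 : ℝ)]; exact hone
    · rw [pow_two]
      exact mul_le_mul (hNr r hr).2 (hNr r' hr').2 hn0'.le (by positivity)
  have hσ : (0 : ℝ) < 1 / (C0 * L) ^ 2 := by positivity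
  have hinj : Set.InjOn nd (S' : Set (ℕ × ℕ)) := by
    intro r hr r' hr' he
    by_contra hne
    have := hsepS r (hS'S hr) r' (hS'S hr') hne
    rw [he, dist_self] at this
    linarith
  set s : Finset ℂ := S'.image nd with hs
  have hscard : s.card = V := by rw [hs, Finset.card_image_of_injOn hinj, hS'c]
  -- values at the nodes
  set ε : ℝ := (I : ℝ) ^ 2 * (2 * I * C0 ^ (2 * I) * (C / L ^ (2 * V + 3))) with hε
  have hε0 : 0 ≤ ε := by positivity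
  have hval : ∀ r ∈ S, ‖G (nd r)‖ ≤ ε := by
    intro r hr
    obtain ⟨h1, h2, h3, h4⟩ := hprop r hr
    have hn0 : (0 : ℝ) < r.2 := by
      have : 0 < r.2 := by omega
      exact_mod_cast this
    have hb : nd r ∈ ball (x0 : ℂ) R := by
      rw [mem_ball]; have := hdist r hr; linarith
    have hex : Gz I q (nd r) ((((r.2 : ℝ) / L : ℝ)) : ℂ) = 0 := by
      have e1 := hzero r hr
      have e2 : Gz I q (nd r) ((((r.2 : ℝ) / L : ℝ)) : ℂ)
          = (((∑ u : Fin I × Fin I, p u * (r.1 : ℝ) ^ (u.1 : ℕ) * (r.2 : ℝ) ^ (u.2 : ℕ)) / ‖q0‖ : ℝ) : ℂ) := by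
        unfold Gz
        rw [Finset.sum_div, Complex.ofReal_sum]
        refine Finset.sum_congr rfl fun u _ => ?_
        simp only [hnd]
        rw [← Complex.ofReal_pow, ← Complex.ofReal_pow, ← Complex.ofReal_mul, ← Complex.ofReal_mul]
        congr 1
        simp only [hq, hq0]
        rw [div_pow, div_pow, pow_add, pow_add]
        have hL' : L ^ (u.1 : ℕ) ≠ 0 := pow_ne_zero _ hLpos.ne'
        have hL'' : L ^ (u.2 : ℕ) ≠ 0 := pow_ne_zero _ hLpos.ne'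
        have hn' : (r.2 : ℝ) ^ (u.1 : ℕ) ≠ 0 := pow_ne_zero _ hn0.ne'
        field_simp
      rw [e2, e1, zero_div, Complex.ofReal_zero]
    have hy' : ‖((((r.2 : ℝ) / L : ℝ)) : ℂ)‖ ≤ C0 := by
      rw [Complex.norm_real, Real.norm_eq_abs, abs_of_nonneg (by positivity), div_le_iff₀ hLpos]
      exact (hNr r hr).2
    have h5 := Gz_sub (I := I) hq1 hC0 (hz1 _ hb) (hNL _ hb) hy'
    rw [hex, sub_zero] at h5
    refine h5.trans ?_
    rw [hε]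
    have h6 : ‖N (nd r) / (L : ℂ) - ((((r.2 : ℝ) / L : ℝ)) : ℂ)‖ ≤ C / L ^ (2 * V + 3) := by
      have e3 : N (nd r) / (L : ℂ) - ((((r.2 : ℝ) / L : ℝ)) : ℂ)
          = (N (nd r) - ((r.2 : ℕ) : ℂ)) / (L : ℂ) := by
        push_cast; ring
      rw [e3, norm_div, Complex.norm_real, Real.norm_eq_abs, abs_of_pos hLpos, div_le_iff₀ hLpos]
      refine (hNr r hr).1.trans (le_of_eq ?_)
      rw [pow_succ L (2 * V + 2)]
      field_simp
    gcongr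
  -- the Schwarz lemma
  have hR1 : R ≤ 1 := by linarith
  have hCL1 : 1 ≤ C0 * L := one_le_mul_of_one_le_of_one_le hC0 hLone
  have hLC0 : L ≤ (C0 * L) ^ 2 := by
    calc L = 1 * L := (one_mul L).symm
      _ ≤ (C0 * L) * (C0 * L) := by
          refine mul_le_mul hCL1 ?_ hLpos.le (by linarith)
          calc L = 1 * L := (one_mul L).symm
            _ ≤ C0 * L := mul_le_mul_of_nonneg_right hC0 hLpos.le
      _ = (C0 * L) ^ 2 := by ring
  have hσR : 1 / (C0 * L) ^ 2 ≤ 2 * (R / 2) := by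
    have e1 : 2 * (R / 2) = R := by ring
    rw [e1, div_le_iff₀ (by positivity)]
    rw [div_le_iff₀ hRp] at hLR
    calc 1 ≤ L * R := hLR
      _ ≤ R * (C0 * L) ^ 2 := by
          rw [mul_comm]; exact mul_le_mul_of_nonneg_left hLC0 hRp.le
  have hschw : ∀ x : ℝ, |x - x0| ≤ R / 24 → ‖G (x : ℂ)‖ ≤ δ / 4 := by
    intro x hx
    have hxd : dist (x : ℂ) (x0 : ℂ) ≤ R / 24 := by
      rw [dist_eq_norm, ← Complex.ofReal_sub, Complex.norm_real, Real.norm_eq_abs]; exact hx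
    have h1 := schwarz_approx (c := (x0 : ℂ)) (r := R / 2) (d := R / 24) (B := B) (ε := ε)
      (σ := 1 / (C0 * L) ^ 2) (by positivity) (by linarith) hGd s
      (by
        intro w hw
        obtain ⟨r, hr, rfl⟩ := Finset.mem_image.1 hw
        exact hdist r (hS'S hr))
      hε0 hσ hσR
      (by
        intro a ha b hb hab
        obtain ⟨r, hr, rfl⟩ := Finset.mem_image.1 ha
        obtain ⟨r', hr', rfl⟩ := Finset.mem_image.1 hb
        exact hsepS r (hS'S hr) r' (hS'S hr') (fun h => hab (by rw [h])))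
      (by
        intro w hw
        obtain ⟨r, hr, rfl⟩ := Finset.mem_image.1 hw
        exact hval r (hS'S hr))
      hGB (x : ℂ) hxd
    rw [hscard] at h1
    have h2 : 4 * (R / 24) / (R / 2) = 1 / 3 := by field_simp; norm_num
    rw [h2] at h1
    have h3 : (V : ℝ) * ε * (2 * (R / 2) / (1 / (C0 * L) ^ 2)) ^ V ≤ δ / 16 := by
      refine le_trans ?_ hLc1
      have e1 : 2 * (R / 2) / (1 / (C0 * L) ^ 2) = (R * C0 ^ 2) * L ^ 2 := by
        field_simp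
      rw [e1, mul_pow, ← pow_mul, hε, hc1]
      have e2 : (V : ℝ) * ((I : ℝ) ^ 2 * (2 * I * C0 ^ (2 * I) * (C / L ^ (2 * V + 3)))) *
          ((R * C0 ^ 2) ^ V * L ^ (2 * V))
          = (V : ℝ) * ((I : ℝ) ^ 2 * (2 * I * C0 ^ (2 * I) * C)) * (R * C0 ^ 2) ^ V
            * (L ^ (2 * V) / L ^ (2 * V + 3)) := by ring
      have e3 : L ^ (2 * V) / L ^ (2 * V + 3) ≤ 1 / L := by
        rw [div_le_div_iff₀ (by positivity) hLpos, one_mul, ← pow_succ]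
        exact pow_le_pow_right₀ hLone (by omega)
      have e4 : ((V : ℝ) * ((I : ℝ) ^ 2 * (2 * I * C0 ^ (2 * I) * C)) * (R * C0 ^ 2) ^ V)
            * (L ^ (2 * V) / L ^ (2 * V + 3)) ≤
          ((V : ℝ) * ((I : ℝ) ^ 2 * (2 * I * C0 ^ (2 * I) * C)) * (R * C0 ^ 2) ^ V) * (1 / L) :=
        mul_le_mul_of_nonneg_left e3 (by positivity)
      rw [e2]
      refine e4.trans (le_of_eq ?_)
      ring
    have h4 : (0 : ℝ) ≤ (V : ℝ) * ε * (2 * (R / 2) / (1 / (C0 * L) ^ 2)) ^ V := by positivity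
    have h5 : ((1 : ℝ) / 3) ^ V ≤ 1 := pow_le_one₀ (by norm_num) (by norm_num)
    have h6 : (V : ℝ) * ε * (2 * (R / 2) / (1 / (C0 * L) ^ 2)) ^ V * (1 / 3) ^ V
        ≤ (V : ℝ) * ε * (2 * (R / 2) / (1 / (C0 * L) ^ 2)) ^ V := mul_le_of_le_one_right h4 h5
    rw [add_mul] at h1
    linarith
  -- the contradiction
  obtain ⟨x, hx, hxlow⟩ := hlow q
  rw [hqn, mul_one] at hxlow
  have hxx : |x - x0| ≤ R / 24 := by
    rw [abs_le]; constructor <;> [linarith [hx.1]; linarith [hx.2]]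
  have hxb : (x : ℂ) ∈ ball (x0 : ℂ) R := by
    rw [mem_ball, dist_eq_norm, ← Complex.ofReal_sub, Complex.norm_real, Real.norm_eq_abs]
    linarith
  have h1 := hschw x hxx
  have h2 := hNh x (by linarith)
  have h3 : ‖N (x : ℂ) / (L : ℂ) - ((1 / hR x : ℝ) : ℂ)‖ ≤ C * ((1 + Real.log L) / L) := by
    rw [← mul_div_assoc]; exact h2
  have hη1 : C * ((1 + Real.log L) / L) ≤ 1 := hLC
  have hC01 : (1 : ℝ) ≤ C0 + 1 := by linarith
  have h4 : ‖N (x : ℂ) / (L : ℂ)‖ ≤ C0 + 1 := (hNL _ hxb).trans (by linarith)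
  have h5 : ‖((1 / hR x : ℝ) : ℂ)‖ ≤ C0 + 1 := by
    calc ‖((1 / hR x : ℝ) : ℂ)‖
        = ‖N (x : ℂ) / (L : ℂ) - (N (x : ℂ) / (L : ℂ) - ((1 / hR x : ℝ) : ℂ))‖ := by
          congr 1; ring
      _ ≤ ‖N (x : ℂ) / (L : ℂ)‖ + ‖N (x : ℂ) / (L : ℂ) - ((1 / hR x : ℝ) : ℂ)‖ :=
          norm_sub_le _ _
      _ ≤ C0 + 1 := add_le_add (hNL _ hxb) (h3.trans hη1)
  have h6 := Gz_sub (I := I) hq1 hC01 (hz1 _ hxb) h4 h5
  rw [← gq_eq_Gz] at h6
  have h7 : (I : ℝ) ^ 2 * (2 * I * (C0 + 1) ^ (2 * I) *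
      ‖N (x : ℂ) / (L : ℂ) - ((1 / hR x : ℝ) : ℂ)‖) ≤ δ / 16 := by
    refine le_trans ?_ hLc2
    rw [hc2]
    calc (I : ℝ) ^ 2 * (2 * I * (C0 + 1) ^ (2 * I) *
          ‖N (x : ℂ) / (L : ℂ) - ((1 / hR x : ℝ) : ℂ)‖)
        ≤ (I : ℝ) ^ 2 * (2 * I * (C0 + 1) ^ (2 * I) * (C * ((1 + Real.log L) / L))) := by
          gcongr
      _ = _ := by ring
  have h8 : |gq I q x| ≤ δ / 4 + δ / 16 := by
    have e1 : |gq I q x| = ‖((gq I q x : ℝ) : ℂ)‖ := by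
      rw [Complex.norm_real, Real.norm_eq_abs]
    rw [e1]
    calc ‖((gq I q x : ℝ) : ℂ)‖ = ‖G (x : ℂ) - (G (x : ℂ) - ((gq I q x : ℝ) : ℂ))‖ := by
          congr 1; ring
      _ ≤ ‖G (x : ℂ)‖ + ‖G (x : ℂ) - ((gq I q x : ℝ) : ℂ)‖ := norm_sub_le _ _
      _ ≤ _ := add_le_add h1 (h6.trans h7)
  linarith

end Pool.Agent.H43.Sing
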